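import Pool.Agent.H84.SM.Targets

/-!
# EUB: upper bound for the dimension of the space of sections
-/

set_option autoImplicit false
set_option linter.unusedVariables false

namespace Pool.Agent.H13.SM

open MvPolynomial SC Pool.Agent.H27.LV Pool.Agent.H84.SM

section

variable {k : Type} [Field k]

theorem gA_ne {G : MvPolynomial (Fin 3) k} (hG : G ≠ 0) : gA G ≠ 0 := by
  have h : gA G = rename Sum.inl G := by
    unfold gA
    rw [rename_eq_aeval]
    rfl
  rw [h]
  intro h0
  exact hG (rename_injective Sum.inl Sum.inl_injective (h0.trans (map_zero _).symm))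

theorem gF_ne {G : MvPolynomial (Fin 3) k} (hG : G ≠ 0) : gF G ≠ 0 := by
  unfold gF
  rw [Ne, FaithfulSMul.algebraMap_eq_zero_iff]
  exact gA_ne hG

theorem sec_coeff {G : MvPolynomial (Fin 3) k} (hG : G ≠ 0) (M : ℕ) (N : R2 k) (j : ℕ) :
    (sec G M N).coeff j = 0 ↔ N.coeff j = 0 := by
  unfold sec
  rw [Polynomial.coeff_C_mul, Polynomial.coeff_map, mul_eq_zero]
  constructor
  · rintro (h | h)
    · exact absurd h (inv_ne_zero (pow_ne_zero _ (gF_ne hG)))
    · rwa [FaithfulSMul.algebraMap_eq_zero_iff] at h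
  · intro h
    right
    rw [h, map_zero]

/-- the coefficient of `w ^ J`, multiplied by `G ^ J` -/
noncomputable def phi (G : MvPolynomial (Fin 3) k) (d n : ℕ) (τ : ℤ) (J : ℕ) :
    E G d n τ →ₗ[k] F2 k :=
  (LinearMap.mulRight k (gF G ^ J)) ∘ₗ ((Polynomial.lcoeff (F2 k) J).restrictScalars k) ∘ₗ
    (E G d n τ).subtype

theorem phi_apply (G : MvPolynomial (Fin 3) k) (d n : ℕ) (τ : ℤ) (J : ℕ) (v : E G d n τ) :
    phi G d n τ J v = (v : Polynomial (F2 k)).coeff J * gF G ^ J := rfl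

end

theorem pf_EUB (hLED : T_LED) (hEME : T_EME) (hUBL : T_UBL) (hBDM : T_BDM) : T_EUB := by
  intro k _ _ _ G d hd hG hGi n τ
  have hG0 : G ≠ 0 := hGi.ne_zero
  have hgF := gF_ne hG0
  have hphi : ∀ (J : ℕ) (v : E G d n τ), phi G d n τ J v = 0 →
      (v : Polynomial (F2 k)).coeff J = 0 := by
    intro J v h
    rw [phi_apply] at h
    rcases mul_eq_zero.1 h with h | h
    · exact h
    · exact absurd h (pow_ne_zero _ hgF)
  have hB := fun J : ℕ => hBDM k G d hd hG (τ - n + d * J) (n - 3 * J)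
  have key := hLED k (E G d n τ) (F2 k) (n / 3 + 1) (fun i => phi G d n τ (n / 3 - i))
    (fun i => BS G d (τ - n + d * ((n / 3 - i : ℕ) : ℤ)) (n - 3 * (n / 3 - i))) ⊥
    (fun i => (hB (n / 3 - i)).1) inferInstance ?_ ?_
  · obtain ⟨h1, h2⟩ := key
    refine ⟨h1, h2.trans (le_of_eq ?_)⟩
    rw [finrank_bot, zero_add]
    have h3 : ∀ i : Fin (n / 3 + 1), Module.finrank k
        (BS G d (τ - n + d * ((n / 3 - (i : ℕ) : ℕ) : ℤ)) (n - 3 * (n / 3 - i))) =
        (fun j : ℕ => bdim d (τ - n + d * j) (n - 3 * j)) (n / 3 + 1 - 1 - (i : ℕ)) := by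
      intro i
      rw [(hB (n / 3 - i)).2]
      simp only [Nat.add_sub_cancel]
    rw [Finset.sum_congr rfl fun i _ => h3 i,
      Fin.sum_univ_eq_sum_range (fun i : ℕ => (fun j : ℕ => bdim d (τ - n + d * j) (n - 3 * j))
        (n / 3 + 1 - 1 - i))]
    exact Finset.sum_range_reflect (fun j : ℕ => bdim d (τ - n + d * j) (n - 3 * j)) (n / 3 + 1)
  · -- vanishing
    intro v hv
    rw [Submodule.mem_bot]
    obtain ⟨M, N, hN, hQ⟩ := (hEME k G d (by omega) hG.1 hG0 n τ v).1 v.2
    obtain ⟨-, ⟨e, -, he⟩, -⟩ := hN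
    have h1 : (v : Polynomial (F2 k)) = 0 := by
      refine Polynomial.ext fun j => ?_
      rw [Polynomial.coeff_zero]
      by_cases hj : j ≤ n / 3
      · have h2 := hphi _ _ (hv ⟨n / 3 - j, by omega⟩)
        have h3 : n / 3 - (n / 3 - j) = j := by omega
        simp only [h3] at h2
        exact h2
      · rw [hQ, sec_coeff hG0]
        exact (he j).2 (by omega)
    exact Subtype.ext h1
  · -- leading coefficients
    intro v i hv
    obtain ⟨M, N, hN, hQ⟩ := (hEME k G d (by omega) hG.1 hG0 n τ v).1 v.2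
    rw [phi_apply, hQ]
    refine hUBL k G d hd hG hGi n M τ N hN (n / 3 - i) (by omega) ?_
    intro j hj
    by_cases hj' : j ≤ n / 3
    · have h2 := hphi _ _ (hv ⟨n / 3 - j, by omega⟩ (by
        rw [Fin.lt_def]
        change n / 3 - j < (i : ℕ)
        omega))
      have h3 : n / 3 - (n / 3 - j) = j := by omega
      simp only [h3] at h2
      rwa [hQ, sec_coeff hG0] at h2
    · obtain ⟨-, ⟨e, -, he⟩, -⟩ := hN
      exact (he j).2 (by omega)

end Pool.Agent.H13.SM
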