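import Pool.Agent.H84.SM.Targets
import Pool.Agent.H84.SM.Targets2
import Pool.Agent.H27.LV.Curve

/-!
# FOC: first order equations
-/

set_option autoImplicit false
set_option linter.unusedVariables false

namespace Pool.Agent.H13.SM

open MvPolynomial SC Pool.Agent.H27.LV Pool.Agent.H84.SM

section

variable {k : Type} [Field k]

/-- the point of the chart `j` -/
noncomputable def ptj (j : Fin 3) : Fin 3 ⊕ Fin 3 → MvPolynomial (Fin 3) k :=
  Sum.elim (fun a => if a = j then 1 else if a = j + 1 then X 0 else X 1)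
    (fun a => if a = j then 0 else if a = j + 1 then 1 else X 2)

/-- the equation in the chart `j` -/
noncomputable def Qj (j : Fin 3) (c : A2 k) : MvPolynomial (Fin 3) k := aeval (ptj j) c

theorem fin3 : ∀ a j : Fin 3, a ≠ j → a ≠ j + 1 → a = j + 2 := by decide

theorem fin3' : ∀ j : Fin 3, j + 1 ≠ j ∧ j + 2 ≠ j ∧ j + 2 ≠ j + 1 := by decide

theorem Qj_eval {L : Type} [CommRing L] [Algebra k L] (j : Fin 3) (c : A2 k) (u v : Fin 3 → L)
    (hu : u j = 1) (hv : v j = 0) (hv1 : v (j + 1) = 1) :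
    aeval (Sum.elim u v) c = aeval ![u (j + 1), u (j + 2), v (j + 2)] (Qj j c) := by
  have h : ((aeval ![u (j + 1), u (j + 2), v (j + 2)] : MvPolynomial (Fin 3) k →ₐ[k] L).comp
      (aeval (ptj j))) = (aeval (Sum.elim u v) : A2 k →ₐ[k] L) := by
    refine algHom_ext fun s => ?_
    rw [AlgHom.comp_apply, aeval_X, aeval_X]
    obtain ⟨f1, f2, f3⟩ := fin3' j
    rcases s with a | a
    · change aeval _ (if a = j then 1 else if a = j + 1 then X 0 else X 1) = u a
      by_cases ha : a = j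
      · rw [if_pos ha, map_one, ha, hu]
      · rw [if_neg ha]
        by_cases ha1 : a = j + 1
        · rw [if_pos ha1, aeval_X, ha1]
          rfl
        · rw [if_neg ha1, aeval_X, fin3 a j ha ha1]
          rfl
    · change aeval _ (if a = j then 0 else if a = j + 1 then 1 else X 2) = v a
      by_cases ha : a = j
      · rw [if_pos ha, map_zero, ha, hv]
      · rw [if_neg ha]
        by_cases ha1 : a = j + 1
        · rw [if_pos ha1, map_one, ha1, hv1]
        · rw [if_neg ha1, aeval_X, fin3 a j ha ha1]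
          rfl
  exact (AlgHom.congr_fun h c).symm

theorem scl [CharZero k] (hSCL : T_SCL) {e i : ℕ} {c : A2 k} (hdv : dv c = 0) (hBH : BH e i c)
    {L : Type} [CommRing L] [Algebra k L] (x y : Fin 3 → L) (α μ η : L) :
    aeval (Sum.elim (fun a => α * x a) (fun a => α * μ * y a + η * x a)) c =
      α ^ (e + i) * μ ^ i * aeval (Sum.elim x y) c := by
  have h := hSCL k e i (Polynomial.C c) ?_ ?_ L x y 0 α μ η
  · have hev : ∀ (x y : Fin 3 → L) (w : L), ev x y w (Polynomial.C c) = aeval (Sum.elim x y) c := by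
      intro x y w
      unfold ev
      rw [Polynomial.coe_eval₂RingHom, Polynomial.eval₂_C]
      rfl
    rw [hev, hev] at h
    exact h
  · intro j
    rw [Polynomial.coeff_C]
    split_ifs
    · exact hdv
    · exact map_zero _
  · intro j
    rw [Polynomial.coeff_C]
    constructor
    · intro hj
      split_ifs with h0
      · subst h0
        exact hBH
      · exact ⟨isWeightedHomogeneous_zero _ _ _, isWeightedHomogeneous_zero _ _ _⟩
    · intro hj
      rw [if_neg (by rintro rfl; omega)]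

theorem Qj_ne [CharZero k] (hSCL : T_SCL) {e i : ℕ} {c : A2 k} (hdv : dv c = 0)
    (hBH : BH e i c) (hc : c ≠ 0) (j : Fin 3) : Qj j c ≠ 0 := by
  intro hQ
  obtain ⟨x, hx⟩ : ∃ x : Fin 3 → F2 k, x = fun a => algebraMap (A2 k) (F2 k) (X (Sum.inl a)) :=
    ⟨_, rfl⟩
  obtain ⟨y, hy⟩ : ∃ y : Fin 3 → F2 k, y = fun a => algebraMap (A2 k) (F2 k) (X (Sum.inr a)) :=
    ⟨_, rfl⟩
  have hxj : x j ≠ 0 := by
    rw [hx]
    change algebraMap (A2 k) (F2 k) _ ≠ 0
    rw [Ne, FaithfulSMul.algebraMap_eq_zero_iff]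
    exact X_ne_zero _
  obtain ⟨f1, f2, f3⟩ := fin3' j
  have hdet : x j * y (j + 1) - x (j + 1) * y j ≠ 0 := by
    rw [hx, hy]
    change algebraMap (A2 k) (F2 k) _ * algebraMap (A2 k) (F2 k) _ -
      algebraMap (A2 k) (F2 k) _ * algebraMap (A2 k) (F2 k) _ ≠ 0
    rw [← map_mul, ← map_mul, ← map_sub, Ne, FaithfulSMul.algebraMap_eq_zero_iff]
    intro h0
    have h1 := congrArg (aeval (fun s : Fin 3 ⊕ Fin 3 =>
      if s = Sum.inl j ∨ s = Sum.inr (j + 1) then (1 : k) else 0)) h0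
    rw [map_sub, map_mul, map_mul, aeval_X, aeval_X, aeval_X, aeval_X, map_zero] at h1
    rw [if_pos (Or.inl rfl), if_pos (Or.inr rfl), if_neg (by
      rintro (h | h)
      · exact f1 (Sum.inl.inj h)
      · cases h)] at h1
    simp at h1
  obtain ⟨δ, hδ⟩ : ∃ δ : F2 k, δ = y (j + 1) - x (j + 1) * y j / x j := ⟨_, rfl⟩
  have hδ0 : δ ≠ 0 := by
    intro h
    apply hdet
    rw [hδ, sub_eq_zero, eq_div_iff hxj] at h
    rw [← h]
    ring
  have h2 := scl hSCL hdv hBH x y (x j)⁻¹ (x j / δ) (-(δ⁻¹ * (y j / x j)))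
  have e1 : (x j)⁻¹ * (x j / δ) = δ⁻¹ := by field_simp
  rw [Qj_eval j c (fun a => (x j)⁻¹ * x a)
    (fun a => (x j)⁻¹ * (x j / δ) * y a + -(δ⁻¹ * (y j / x j)) * x a) (inv_mul_cancel₀ hxj) (by
      change (x j)⁻¹ * (x j / δ) * y j + -(δ⁻¹ * (y j / x j)) * x j = 0
      rw [e1]
      field_simp
      ring) (by
      change (x j)⁻¹ * (x j / δ) * y (j + 1) + -(δ⁻¹ * (y j / x j)) * x (j + 1) = 1
      rw [e1]
      have e2 : δ⁻¹ * y (j + 1) + -(δ⁻¹ * (y j / x j)) * x (j + 1) =
          δ⁻¹ * (y (j + 1) - x (j + 1) * y j / x j) := by ring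
      rw [e2, ← hδ, inv_mul_cancel₀ hδ0]), hQ, map_zero] at h2
  have h3 : aeval (Sum.elim x y) c = 0 := by
    rcases mul_eq_zero.1 h2.symm with h | h
    · rcases mul_eq_zero.1 h with h | h
      · exact absurd h (pow_ne_zero _ (inv_ne_zero hxj))
      · exact absurd h (pow_ne_zero _ (div_ne_zero hxj hδ0))
    · exact h
  have h4 : (aeval (Sum.elim x y) : A2 k →ₐ[k] F2 k) = IsScalarTower.toAlgHom k (A2 k) (F2 k) := by
    refine algHom_ext fun s => ?_
    rw [aeval_X]
    rcases s with a | a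
    · rw [hx]
      rfl
    · rw [hy]
      rfl
  rw [h4, IsScalarTower.coe_toAlgHom', FaithfulSMul.algebraMap_eq_zero_iff] at h3
  exact hc h3

end

theorem pf_FOC (hSCL : T_SCL) (hFOQ : T_FOQ) : T_FOC := by
  intro k _ _ _ G d hd hG hGi c hc hdv hBHx
  obtain ⟨e, i, hBH⟩ := hBHx
  choose C hC using fun j : Fin 3 => hFOQ k G d j hd hG hGi (Qj j c) (Qj_ne hSCL hdv hBH hc j)
  have hCle : ∀ j, C j ≤ ∑ j, C j + 1 := fun j =>
    (Finset.single_le_sum (f := C) (fun _ _ => Nat.zero_le _) (Finset.mem_univ j)).trans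
      (Nat.le_succ _)
  refine ⟨∑ j, C j + 1, ?_⟩
  intro K _ _ _ htr D hD x S hPr hCrv hc0
  obtain ⟨j, hj⟩ := hCrv.one
  have hDj : D (x j) = 0 := by rw [hj, D.map_one_eq_zero]
  obtain ⟨f1, f2, f3⟩ := fin3' j
  by_cases h1 : D (x (j + 1)) = 0
  · left
    obtain ⟨lam, hlam⟩ := Pool.Agent.H27.LV.ker k K htr D hD _ h1
    refine ⟨1, X (j + 1) - MvPolynomial.C lam * X j, by omega, ?_, ?_, ?_⟩
    · intro h
      have h2 := congrArg (aeval (fun s : Fin 3 => if s = j + 1 then (1 : k) else 0)) h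
      rw [map_sub, map_mul, aeval_X, aeval_X, map_zero, if_pos rfl, if_neg (Ne.symm f1),
        mul_zero, sub_zero] at h2
      exact one_ne_zero h2
    · refine IsHomogeneous.sub (isHomogeneous_X _ _) ?_
      have := (isHomogeneous_C (Fin 3) lam).mul (isHomogeneous_X k j)
      rwa [zero_add] at this
    · rw [map_sub, map_mul, aeval_X, aeval_X, aeval_C, hlam, hj, mul_one, sub_self]
  · let v : Fin 3 → K := fun a => D (x a) / D (x (j + 1))
    have h2 : aeval (Sum.elim x v) c = 0 := by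
      have h3 := scl hSCL hdv hBH x v 1 (D (x (j + 1))) 0
      have e1 : (fun a => 1 * x a) = x := by funext a; rw [one_mul]
      have e2 : (fun a => 1 * D (x (j + 1)) * v a + 0 * x a) = fun a => D (x a) := by
        funext a
        change 1 * D (x (j + 1)) * (D (x a) / D (x (j + 1))) + 0 * x a = _
        rw [one_mul, zero_mul, add_zero, mul_div_cancel₀ _ h1]
      rw [e1, e2, hc0, one_pow, one_mul] at h3
      rcases mul_eq_zero.1 h3.symm with h | h
      · exact absurd h (pow_ne_zero _ h1)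
      · exact h
    have hvj : v j = 0 := by
      change D (x j) / D (x (j + 1)) = 0
      rw [hDj, zero_div]
    have hv1 : v (j + 1) = 1 := div_self h1
    rw [Qj_eval j c x v hj hvj hv1] at h2
    rcases hC j K htr D hD x S hPr hj hCrv h1 h2 with ⟨e', Φ, he', hΦ⟩ | hdeg
    · exact Or.inl ⟨e', Φ, he'.trans (hCle j), hΦ⟩
    · exact Or.inr (hdeg.trans (Nat.mul_le_mul_right _ (hCle j)))

end Pool.Agent.H13.SM
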