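import Pool.Agent.H84.SM.Targets2
import Pool.Agent.H92.BF.All
import Pool.Agent.H27.LV.Curve
import Pool.Agent.H27.LV.LVX

/-!
# IMF: the degree of the image
-/

set_option autoImplicit false
set_option linter.unusedVariables false

namespace Pool.Agent.H13.SM

open MvPolynomial SC Pool.Agent.H27.LV Pool.Agent.H84.SM

section

variable {k : Type} [Field k]

/-- homogenisation with respect to the variable `j` -/
noncomputable def hmg (j : Fin 3) (P : MvPolynomial (Fin 2) k) : MvPolynomial (Fin 3) k :=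
  ∑ m ∈ P.support, MvPolynomial.C (P.coeff m) * (X (j + 1) ^ m 0 * X (j + 2) ^ m 1 *
    X j ^ (P.totalDegree - (m 0 + m 1)))

theorem hmg_homogeneous (j : Fin 3) (P : MvPolynomial (Fin 2) k) :
    (hmg j P).IsHomogeneous P.totalDegree := by
  unfold hmg
  refine IsHomogeneous.sum _ _ _ fun m hm => ?_
  have h1 : m 0 + m 1 ≤ P.totalDegree := by
    have h2 := le_totalDegree hm
    rw [Finsupp.sum_fintype _ _ (fun _ => rfl), Fin.sum_univ_two] at h2
    exact h2
  have h2 : (MvPolynomial.C (P.coeff m) * (X (j + 1) ^ m 0 * X (j + 2) ^ m 1 *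
      X j ^ (P.totalDegree - (m 0 + m 1))) : MvPolynomial (Fin 3) k).IsHomogeneous
      (0 + ((m 0 + m 1) + (P.totalDegree - (m 0 + m 1)))) :=
    (isHomogeneous_C _ _).mul (((isHomogeneous_X_pow _ _).mul (isHomogeneous_X_pow _ _)).mul
      (isHomogeneous_X_pow _ _))
  rwa [zero_add, Nat.add_sub_cancel' h1] at h2

theorem aeval_hmg {L : Type} [CommRing L] [Algebra k L] (j : Fin 3) (P : MvPolynomial (Fin 2) k)
    (u : Fin 3 → L) (hu : u j = 1) : aeval u (hmg j P) = aeval ![u (j + 1), u (j + 2)] P := by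
  unfold hmg
  rw [map_sum, aeval_def, eval₂_eq']
  refine Finset.sum_congr rfl fun m _ => ?_
  rw [map_mul, map_mul, map_mul, map_pow, map_pow, map_pow, aeval_X, aeval_X, aeval_X, aeval_C,
    hu, one_pow, mul_one, Fin.prod_univ_two]
  rfl

theorem hmg_ne (j : Fin 3) {P : MvPolynomial (Fin 2) k} (hP : P ≠ 0) : hmg j P ≠ 0 := by
  intro h
  have hj : j + 1 ≠ j ∧ j + 2 ≠ j ∧ j + 2 ≠ j + 1 := by
    clear h
    revert j
    decide
  have h1 := aeval_hmg j P (fun a => if a = j then (1 : MvPolynomial (Fin 2) k) else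
    if a = j + 1 then X 0 else X 1) (if_pos rfl)
  rw [h, map_zero] at h1
  have h2 : (![if j + 1 = j then (1 : MvPolynomial (Fin 2) k) else
      if j + 1 = j + 1 then X 0 else X 1, if j + 2 = j then (1 : MvPolynomial (Fin 2) k) else
      if j + 2 = j + 1 then X 0 else X 1] : Fin 2 → MvPolynomial (Fin 2) k) = X := by
    rw [if_neg hj.1, if_pos rfl, if_neg hj.2.1, if_neg hj.2.2]
    funext i
    fin_cases i <;> rfl
  rw [h2, aeval_X_left_apply] at h1
  exact hP h1.symm

end

theorem pf_IMF : T_IMF := by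
  intro k K _ _ _ _ _ _ htr x hx
  obtain ⟨j, hj⟩ := hx
  obtain ⟨P, hP0, hPd, hP⟩ := Pool.Agent.H92.BF.all_IMG k K htr ![x (j + 1), x (j + 2)]
  have hdeg : deg k ![x (j + 1), x (j + 2)] ≤ deg k x := by
    unfold deg
    refine finsum_le_finsum' ?_ ?_ fun v => ?_
    · exact Pool.Agent.H27.LV.pfi k K htr (Fin 2) _
    · exact Pool.Agent.H27.LV.pfi k K htr (Fin 3) x
    · refine poleOrder_le v _ _ fun i => ?_
      fin_cases i
      · exact npole_le v x (j + 1)
      · exact npole_le v x (j + 2)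
  refine ⟨P.totalDegree, hmg j P, by omega, hmg_ne j hP0, hmg_homogeneous j P, ?_⟩
  rw [aeval_hmg j P x hj, hP]

end Pool.Agent.H13.SM
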