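import Pool.Agent.H84.SM.Targets

/-!
# SEL: sections of negative twist without the common factor `P`
-/

set_option autoImplicit false
set_option linter.unusedVariables false

namespace Pool.Agent.H13.SM

open MvPolynomial SC Pool.Agent.H27.LV Pool.Agent.H84.SM

section

variable {k : Type} [Field k]

theorem sec_mul {G : MvPolynomial (Fin 3) k} (hg : gF G ≠ 0) (M M' : ℕ) (P N : R2 k) :
    sec G M' P * sec G M (gR G ^ M' * N) = sec G M (P * N) := by
  unfold sec
  have h1 : (gR G ^ M' * N).map (algebraMap (A2 k) (F2 k)) =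
      Polynomial.C (gF G ^ M') * N.map (algebraMap (A2 k) (F2 k)) := by
    rw [Polynomial.map_mul, Polynomial.map_pow]
    unfold gR
    rw [Polynomial.map_C, ← Polynomial.C_pow]
    rfl
  have h2 : (Polynomial.C ((gF G ^ M')⁻¹) : Polynomial (F2 k)) * Polynomial.C (gF G ^ M') = 1 := by
    rw [← Polynomial.C_mul, inv_mul_cancel₀ (pow_ne_zero _ hg), Polynomial.C_1]
  rw [h1, Polynomial.map_mul]
  calc Polynomial.C ((gF G ^ M')⁻¹) * Polynomial.map (algebraMap (A2 k) (F2 k)) P *
      (Polynomial.C ((gF G ^ M)⁻¹) * (Polynomial.C (gF G ^ M') *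
        Polynomial.map (algebraMap (A2 k) (F2 k)) N))
      = (Polynomial.C ((gF G ^ M')⁻¹) * Polynomial.C (gF G ^ M')) *
        (Polynomial.C ((gF G ^ M)⁻¹) * (Polynomial.map (algebraMap (A2 k) (F2 k)) P *
          Polynomial.map (algebraMap (A2 k) (F2 k)) N)) := by ring
    _ = _ := by rw [h2, one_mul]

theorem BS_neg (G : MvPolynomial (Fin 3) k) (d : ℕ) {e : ℤ} (he : e < 0) (i : ℕ) :
    BS G d e i = ⊥ := by
  unfold BS
  rw [Submodule.span_eq_bot]
  rintro f ⟨e', b, he', -⟩
  omega

end

theorem pf_SEL (hDIV : T_DIV) (hGDW : T_GDW) (hNDM : T_NDM) (hEUB : T_EUB) (hUBL : T_UBL)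
    (hMUG : T_MUG) (hORK : T_ORK) (hGPR : T_GPR) (hHOM : T_HOM) (hBDM : T_BDM) (hEME : T_EME) :
    T_SEL := by
  intro k _ _ _ G d hd hG hGi e m M' P hP hPd hPi hPh hM1 hM hm3
  have hd2 : 2 ≤ d := by omega
  obtain ⟨-, -, hgA, hgR, -⟩ := hGPR k G d hd2 hG hGi
  have hgF : gF G ≠ 0 := by
    unfold gF
    rw [Ne, FaithfulSMul.algebraMap_eq_zero_iff]
    exact hgA.ne_zero
  have hP0 : P ≠ 0 := hP.ne_zero
  have hPp : Prime P := hP.prime
  have hG0 : G ≠ 0 := hGi.ne_zero
  -- the degree
  have hJm : 3 * P.natDegree ≤ m := by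
    by_contra h
    have h1 := (hPh P.natDegree).2 (by omega)
    exact hP0 (Polynomial.leadingCoeff_eq_zero.1 h1)
  obtain ⟨a, ha⟩ : ∃ a : ℤ, a = d * M' - e - m := ⟨_, rfl⟩
  have hPsec : IsSec G d m (-a) M' P := by
    refine ⟨hPi, ⟨e, by rw [ha]; ring, hPh⟩, fun l => ?_⟩
    exact hORK k G d hd2 hG hGi e m M' P hPh 0 l hM
  by_cases hcase : (d : ℤ) - 2 ≤ a
  · -- the derivative
    obtain ⟨m0, rfl⟩ : ∃ m0, m = m0 + 3 := ⟨m - 3, by omega⟩
    have h1 := hGDW k G d hd2 hG m0 M' (-a) P hPsec
    refine ⟨m0, (a - d + 3).toNat, M', gR G * Polynomial.derivative P, by omega, ?_, ?_⟩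
    · have h2 : (-((a - d + 3).toNat : ℤ)) = -a + d - 3 := by omega
      rw [h2]
      exact h1
    · intro h
      rcases hPp.dvd_or_dvd h with h | h
      · have h2 := Polynomial.natDegree_le_of_dvd h hgR.ne_zero
        have h3 : (gR G).natDegree = 0 := Polynomial.natDegree_C _
        omega
      · have h2 : Polynomial.derivative P ≠ 0 := by
          intro h0
          have := Polynomial.derivative_eq_zero.1 h0
          omega
        have h3 := Polynomial.natDegree_le_of_dvd h h2
        have h4 := Polynomial.natDegree_derivative_lt (p := P) (by omega)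
        omega
  · -- the main case
    push Not at hcase
    have hm3' : 3 ≤ m := by omega
    have hd50 : (50 : ℤ) ≤ d := by exact_mod_cast hd
    have h4a : 4 * a ≤ m * (d - 4) := by
      have hm3'' : (3 : ℤ) ≤ m := by exact_mod_cast hm3'
      by_cases ha0 : a ≤ 0
      · have : (0 : ℤ) ≤ m * (d - 4) := mul_nonneg (by omega) (by omega)
        omega
      · push Not at ha0
        have hmne : m ≠ 3 := by
          intro h
          have h1 := hm3 h
          rw [ha] at ha0
          subst h
          push_cast at *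
          omega
        have hm4 : (4 : ℤ) ≤ m := by
          have : 4 ≤ m := by omega
          exact_mod_cast this
        by_cases hJ2 : 2 ≤ P.natDegree
        · have hm6 : (6 : ℤ) ≤ m := by
            have : 6 ≤ m := by omega
            exact_mod_cast this
          have h1 : 6 * ((d : ℤ) - 4) ≤ m * (d - 4) :=
            mul_le_mul_of_nonneg_right hm6 (by omega)
          omega
        · have hJ1 : P.natDegree = 1 := by omega
          have h1 := hUBL k G d hd2 hG hGi m M' (-a) P hPsec 1 (by omega)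
            (fun j hj => Polynomial.coeff_eq_zero_of_natDegree_lt (by omega))
          have h2 : 0 ≤ -a - m + d * ((1 : ℕ) : ℤ) := by
            by_contra hneg
            rw [BS_neg G d (not_le.1 hneg), Submodule.mem_bot] at h1
            rcases mul_eq_zero.1 h1 with h1 | h1
            · unfold sec at h1
              rw [Polynomial.coeff_C_mul, Polynomial.coeff_map] at h1
              rcases mul_eq_zero.1 h1 with h1 | h1
              · exact (inv_ne_zero (pow_ne_zero _ hgF)) h1
              · rw [FaithfulSMul.algebraMap_eq_zero_iff, ← hJ1] at h1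
                exact hP0 (Polynomial.leadingCoeff_eq_zero.1 h1)
            · exact (pow_ne_zero _ hgF) h1
          have h3 : 4 * ((d : ℤ) - 4) ≤ m * (d - 4) :=
            mul_le_mul_of_nonneg_right hm4 (by omega)
          push_cast at h2
          omega
    by_contra hcon
    have hdvd : ∀ (n M : ℕ) (τ : ℤ) (N : R2 k), τ < 0 → IsSec G d n τ M N → P ∣ N := by
      intro n M τ N hτ hN
      by_contra hPN
      refine hcon ⟨n, (-τ).toNat, M, N, by omega, ?_, hPN⟩
      have : (-((-τ).toNat : ℤ)) = τ := by omega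
      rw [this]
      exact hN
    -- the step
    have hfin : ∀ (n : ℕ) (τ : ℤ), Module.Finite k (E G d n τ) := fun n τ =>
      (hEUB k G d hd2 hG hGi n τ).1
    have hstep : ∀ (n : ℕ) (τ : ℤ), τ < 0 → 0 < Module.finrank k (E G d n τ) → m ≤ n ∧
        Module.finrank k (E G d n τ) ≤ Module.finrank k (E G d (n - m) (τ + a)) := by
      intro n τ hτ hpos
      have hsec : ∀ Q ∈ E G d n τ, Q ≠ 0 → m ≤ n ∧ ∃ Q1 ∈ E G d (n - m) (τ + a),
          sec G M' P * Q1 = Q := by
        intro Q hQ hQ0
        obtain ⟨M, N, hN, rfl⟩ := (hEME k G d (by omega) hG.1 hG0 n τ Q).1 hQ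
        obtain ⟨N', rfl⟩ := hdvd n M τ N hτ hN
        have hN' : N' ≠ 0 := by
          rintro rfl
          apply hQ0
          unfold sec
          rw [mul_zero, Polynomial.map_zero, mul_zero]
        obtain ⟨h1, h2⟩ := hDIV k G d hd2 hG hGi e m M' P hPh hM1 hM n M τ N' hN' hN
        have h3 : τ - ((e : ℤ) + m - d * M') = τ + a := by rw [ha]; ring
        rw [h3] at h2
        exact ⟨h1, sec G M (gR G ^ M' * N'), Submodule.subset_span ⟨M, _, h2, rfl⟩,
          sec_mul hgF M M' P N'⟩
      have hmn : m ≤ n := by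
        have : E G d n τ ≠ ⊥ := by
          intro h
          rw [h, finrank_bot] at hpos
          exact absurd hpos (lt_irrefl _)
        obtain ⟨Q, hQ, hQ0⟩ := Submodule.exists_mem_ne_zero_of_ne_bot this
        exact (hsec Q hQ hQ0).1
      refine ⟨hmn, ?_⟩
      have hle : E G d n τ ≤ (E G d (n - m) (τ + a)).map
          (LinearMap.mulLeft k (sec G M' P)) := by
        intro Q hQ
        by_cases hQ0 : Q = 0
        · rw [hQ0]
          exact Submodule.zero_mem _
        · obtain ⟨-, Q1, hQ1, h⟩ := hsec Q hQ hQ0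
          exact ⟨Q1, hQ1, h⟩
      have := hfin (n - m) (τ + a)
      calc Module.finrank k (E G d n τ) ≤ Module.finrank k ((E G d (n - m) (τ + a)).map
            (LinearMap.mulLeft k (sec G M' P))) := Submodule.finrank_mono hle
        _ ≤ _ := Submodule.finrank_map_le _ _
    -- the dimension inequality
    obtain ⟨m1, hm1, hdim⟩ := hNDM k G d hd hG hGi
    have hcast : (((d - 4) * m1 : ℕ) : ℤ) = ((d : ℤ) - 4) * m1 := by
      rw [Nat.cast_mul, Nat.cast_sub (by omega)]
      push_cast
      ring
    rw [hcast] at hdim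
    have ht1 : (1 : ℤ) ≤ ((d : ℤ) - 4) * m1 := by
      have h1 : (1 : ℤ) ≤ m1 := by exact_mod_cast hm1
      nlinarith
    have hpos : 0 < Module.finrank k (E G d (60 * m1) (-(((d : ℤ) - 4) * m1))) :=
      lt_of_le_of_lt (Nat.zero_le _) (hdim 0 0 (Nat.zero_le _) le_rfl (by omega))
    have hind : ∀ r : ℕ, (∀ i < r, -(((d : ℤ) - 4) * m1) + i * a < 0) → r * m ≤ 60 * m1 ∧
        Module.finrank k (E G d (60 * m1) (-(((d : ℤ) - 4) * m1))) ≤
          Module.finrank k (E G d (60 * m1 - r * m) (-(((d : ℤ) - 4) * m1) + r * a)) := by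
      intro r
      induction r with
      | zero =>
        intro _
        have e1 : 60 * m1 - 0 * m = 60 * m1 := by omega
        have e2 : -(((d : ℤ) - 4) * m1) + ((0 : ℕ) : ℤ) * a = -(((d : ℤ) - 4) * m1) := by
          push_cast
          ring
        refine ⟨by omega, ?_⟩
        rw [e1, e2]
      | succ r ih =>
        intro hr
        obtain ⟨h1, h2⟩ := ih (fun i hi => hr i (by omega))
        obtain ⟨h3, h4⟩ := hstep _ _ (hr r (Nat.lt_succ_self r)) (lt_of_lt_of_le hpos h2)
        have h5 : (r + 1) * m = r * m + m := by ring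
        refine ⟨by rw [h5]; omega, h2.trans (h4.trans (le_of_eq ?_))⟩
        have h6 : 60 * m1 - r * m - m = 60 * m1 - (r + 1) * m := by rw [h5]; omega
        have h7 : -(((d : ℤ) - 4) * m1) + r * a + a = -(((d : ℤ) - 4) * m1) +
            ((r + 1 : ℕ) : ℤ) * a := by push_cast; ring
        rw [h6, h7]
    by_cases ha0 : a ≤ 0
    · obtain ⟨h1, -⟩ := hind (60 * m1 + 1) (fun i _ => by
        have : (i : ℤ) * a ≤ 0 := mul_nonpos_of_nonneg_of_nonpos (by positivity) ha0
        linarith)
      have : (60 * m1 + 1) * 3 ≤ (60 * m1 + 1) * m := Nat.mul_le_mul_left _ hm3'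
      omega
    · push Not at ha0
      have hex : ∃ r : ℕ, 0 ≤ -(((d : ℤ) - 4) * m1) + r * a := by
        refine ⟨(((d : ℤ) - 4) * m1).toNat, ?_⟩
        rw [Int.toNat_of_nonneg (by omega)]
        nlinarith
      obtain ⟨r, hr, hrmin⟩ : ∃ r : ℕ, 0 ≤ -(((d : ℤ) - 4) * m1) + r * a ∧
          ∀ i < r, -(((d : ℤ) - 4) * m1) + i * a < 0 :=
        ⟨Nat.find hex, Nat.find_spec hex, fun i hi => not_le.1 (Nat.find_min hex hi)⟩
      obtain ⟨h1, h2⟩ := hind r hrmin
      have hr0 : r ≠ 0 := by
        rintro rfl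
        simp only [Nat.cast_zero, zero_mul, add_zero] at hr
        omega
      have h3 := hrmin (r - 1) (by omega)
      have h4 : ((r - 1 : ℕ) : ℤ) = r - 1 := by
        rw [Nat.cast_sub (by omega)]
        simp
      rw [h4] at h3
      have h5 : -(((d : ℤ) - 4) * m1) + r * a ≤ d := by
        have : ((r : ℤ) - 1) * a = r * a - a := by ring
        rw [this] at h3
        omega
      have h6 : 60 * m1 - r * m ≤ 56 * m1 := by
        have h7 : 4 * (((d : ℤ) - 4) * m1) ≤ 4 * (r * a) := by linarith
        have h8 : 4 * ((r : ℤ) * a) ≤ r * (m * (d - 4)) := by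
          have := mul_le_mul_of_nonneg_left h4a (Int.natCast_nonneg r)
          linarith
        have h9 : ((d : ℤ) - 4) * (4 * m1) ≤ (d - 4) * (r * m) := by linarith
        have h10 : (4 * m1 : ℤ) ≤ r * m := le_of_mul_le_mul_left h9 (by omega)
        have h11 : 4 * m1 ≤ r * m := by exact_mod_cast h10
        omega
      exact absurd (hdim _ _ h6 hr h5) (not_lt.2 h2)

end Pool.Agent.H13.SM
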